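import Pool.Agent.N71.RP.Stm
import Pool.Agent.Erdos456.Mertens

/-!
# Project RP, leaf SMOG: sums over all `n ≤ X ^ a` against Euler products (Rankin's trick)
-/

set_option autoImplicit false

namespace Pool.Agent.N11.RP.SMOG

open Finset Filter Pool.Agent.N71.RP

/-- A completely multiplicative function with values `0`, `1`, `-1`. -/
structure CM (f : ℕ → ℝ) : Prop where
  one : f 1 = 1
  mul : ∀ a b : ℕ, a ≠ 0 → b ≠ 0 → f (a * b) = f a * f b
  val : ∀ n : ℕ, f n = 0 ∨ f n = 1 ∨ f n = -1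

/-- A multiplicative function with Euler factors `E p x`, of weight `κ`. -/
structure Eu (r : ℕ → ℝ) (E : ℕ → ℝ → ℝ) (κ : ℝ) : Prop where
  one : r 1 = 1
  mul : ∀ m n : ℕ, m ≠ 0 → n ≠ 0 → Nat.Coprime m n → r (m * n) = r m * r n
  sm : ∀ p : ℕ, p.Prime → ∀ x : ℝ, 0 < x → x < 1 → Summable (fun k : ℕ => ‖r (p ^ k) * x ^ k‖)
  val : ∀ p : ℕ, p.Prime → ∀ x : ℝ, 0 < x → x < 1 → ∑' k : ℕ, r (p ^ k) * x ^ k = E p x
  pos : ∀ p : ℕ, ∀ x : ℝ, 0 < x → x < 1 → 0 < E p x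
  le : ∀ p : ℕ, ∀ x y : ℝ, 0 < x → x ≤ y → y ≤ 2 / 3 → E p y ≤ Real.exp (3 * κ * (y - x)) * E p x

/-- The function as an arithmetic function. -/
noncomputable def af (r : ℕ → ℝ) : ArithmeticFunction ℝ := ⟨fun n => if n = 0 then 0 else r n, by simp⟩

theorem af_apply (r : ℕ → ℝ) {n : ℕ} (hn : n ≠ 0) : af r n = r n := if_neg hn

theorem af_mult {r : ℕ → ℝ} (h1 : r 1 = 1)
    (h2 : ∀ m n : ℕ, m ≠ 0 → n ≠ 0 → Nat.Coprime m n → r (m * n) = r m * r n) :
    (af r).IsMultiplicative := by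
  refine ⟨by rw [af_apply r one_ne_zero, h1], ?_⟩
  intro m n hmn
  by_cases hm : m = 0
  · subst hm; simp
  by_cases hn : n = 0
  · subst hn; simp
  rw [af_apply r hm, af_apply r hn, af_apply r (Nat.mul_ne_zero hm hn), h2 m n hm hn hmn]

theorem cv_eq (f h : ℕ → ℝ) (n : ℕ) : cv f h n = (af f * af h) n := by
  rw [ArithmeticFunction.mul_apply, Nat.sum_divisorsAntidiagonal (fun i j => af f i * af h j)]
  unfold cv
  refine Finset.sum_congr rfl fun m hm => ?_
  have hm0 : m ≠ 0 := (Nat.pos_of_mem_divisors hm).ne'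
  have hd := Nat.mem_divisors.1 hm
  have h2 : n / m ≠ 0 :=
    (Nat.div_pos (Nat.le_of_dvd (Nat.pos_of_ne_zero hd.2) hd.1) (Nat.pos_of_ne_zero hm0)).ne'
  rw [af_apply _ hm0, af_apply _ h2]

theorem cv_pp (r s : ℕ → ℝ) (p : ℕ) (hp : p.Prime) (k : ℕ) (x : ℝ) :
    cv r s (p ^ k) * x ^ k =
      ∑ j ∈ range (k + 1), (r (p ^ j) * x ^ j) * (s (p ^ (k - j)) * x ^ (k - j)) := by
  unfold cv
  rw [Nat.sum_divisors_prime_pow hp, Finset.sum_mul]
  refine Finset.sum_congr rfl fun j hj => ?_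
  have hj' : j ≤ k := Nat.lt_succ_iff.1 (Finset.mem_range.1 hj)
  rw [Nat.pow_div hj' hp.pos]
  have : x ^ k = x ^ j * x ^ (k - j) := by rw [← pow_add, Nat.add_sub_cancel' hj']
  rw [this]
  ring

theorem cv_one' {r s : ℕ → ℝ} (h : r 1 = 1) (g : s 1 = 1) : cv r s 1 = 1 := by
  unfold cv
  rw [Nat.divisors_one, Finset.sum_singleton, h, Nat.div_one, g, one_mul]

theorem cv_mul' {r s : ℕ → ℝ} (h1 : r 1 = 1)
    (h2 : ∀ m n : ℕ, m ≠ 0 → n ≠ 0 → Nat.Coprime m n → r (m * n) = r m * r n) (g1 : s 1 = 1)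
    (g2 : ∀ m n : ℕ, m ≠ 0 → n ≠ 0 → Nat.Coprime m n → s (m * n) = s m * s n) (m n : ℕ)
    (hmn : Nat.Coprime m n) : cv r s (m * n) = cv r s m * cv r s n := by
  rw [cv_eq, cv_eq, cv_eq]
  exact ((af_mult h1 h2).mul (af_mult g1 g2)).2 hmn

theorem cv_sm {r s : ℕ → ℝ} {p : ℕ} (hp : p.Prime) {x : ℝ}
    (h : Summable (fun k : ℕ => ‖r (p ^ k) * x ^ k‖)) (g : Summable (fun k : ℕ => ‖s (p ^ k) * x ^ k‖)) :
    Summable (fun k : ℕ => ‖cv r s (p ^ k) * x ^ k‖) := by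
  refine (summable_norm_sum_mul_range_of_summable_norm h g).congr fun k => ?_
  rw [cv_pp r s p hp k x]

theorem cv_val {r s : ℕ → ℝ} {p : ℕ} (hp : p.Prime) {x : ℝ}
    (h : Summable (fun k : ℕ => ‖r (p ^ k) * x ^ k‖)) (g : Summable (fun k : ℕ => ‖s (p ^ k) * x ^ k‖)) :
    ∑' k : ℕ, cv r s (p ^ k) * x ^ k = (∑' k : ℕ, r (p ^ k) * x ^ k) * ∑' k : ℕ, s (p ^ k) * x ^ k := by
  rw [tsum_mul_tsum_eq_tsum_sum_range_of_summable_norm h g]
  exact tsum_congr fun k => cv_pp r s p hp k x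

theorem le_mul' {A B A' B' κ μ u : ℝ} (h1 : A ≤ Real.exp (3 * κ * u) * A') (h2 : B ≤ Real.exp (3 * μ * u) * B')
    (h3 : 0 ≤ A') (h4 : 0 ≤ B) : A * B ≤ Real.exp (3 * (κ + μ) * u) * (A' * B') := by
  have e : Real.exp (3 * (κ + μ) * u) = Real.exp (3 * κ * u) * Real.exp (3 * μ * u) := by
    rw [← Real.exp_add]
    congr 1
    ring
  rw [e]
  calc A * B ≤ (Real.exp (3 * κ * u) * A') * (Real.exp (3 * μ * u) * B') :=
        mul_le_mul h1 h2 h4 (mul_nonneg (Real.exp_pos _).le h3)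
    _ = _ := by ring

theorem eu_cv {r s : ℕ → ℝ} {E F : ℕ → ℝ → ℝ} {κ μ : ℝ} (h : Eu r E κ) (g : Eu s F μ) :
    Eu (cv r s) (fun p x => E p x * F p x) (κ + μ) :=
  ⟨cv_one' h.one g.one, fun m n _ _ hmn => cv_mul' h.one h.mul g.one g.mul m n hmn,
    fun p hp x hx0 hx1 => cv_sm hp (h.sm p hp x hx0 hx1) (g.sm p hp x hx0 hx1),
    fun p hp x hx0 hx1 => by
      rw [cv_val hp (h.sm p hp x hx0 hx1) (g.sm p hp x hx0 hx1), h.val p hp x hx0 hx1,
        g.val p hp x hx0 hx1],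
    fun p x hx0 hx1 => mul_pos (h.pos p x hx0 hx1) (g.pos p x hx0 hx1),
    fun p x y hx hxy hy => le_mul' (h.le p x y hx hxy hy) (g.le p x y hx hxy hy)
      (h.pos p x hx (by linarith)).le (g.pos p y (by linarith) (by linarith)).le⟩

theorem cm_pow {f : ℕ → ℝ} (hf : CM f) (p : ℕ) (hp : p ≠ 0) (k : ℕ) : f (p ^ k) = f p ^ k := by
  induction k with
  | zero => simp [hf.one]
  | succ k ih => rw [pow_succ, hf.mul _ _ (pow_ne_zero _ hp) hp, ih, pow_succ]

theorem cm_abs {f : ℕ → ℝ} (hf : CM f) (p : ℕ) : |f p| ≤ 1 := by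
  rcases hf.val p with h | h | h <;> rw [h] <;> norm_num

/-- One Euler factor. -/
theorem factor_le (c x y : ℝ) (hc : c = 0 ∨ c = 1 ∨ c = -1) (hx : 0 < x) (hxy : x ≤ y)
    (hy : y ≤ 2 / 3) :
    (1 - c * y)⁻¹ ≤ Real.exp (3 * (y - x)) * (1 - c * x)⁻¹ := by
  have hE : 1 + 3 * (y - x) ≤ Real.exp (3 * (y - x)) := by
    have := Real.add_one_le_exp (3 * (y - x))
    linarith
  have hE1 : 1 ≤ Real.exp (3 * (y - x)) := by nlinarith
  have key : 1 - x ≤ Real.exp (3 * (y - x)) * (1 - y) := by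
    have h1 : (1 + 3 * (y - x)) * (1 - y) ≤ Real.exp (3 * (y - x)) * (1 - y) :=
      mul_le_mul_of_nonneg_right hE (by linarith)
    nlinarith [mul_nonneg (sub_nonneg.2 hxy) (sub_nonneg.2 hy)]
  have hcy : 0 < 1 - c * y := by
    rcases hc with h | h | h <;> rw [h] <;> linarith
  have hcx : 0 < 1 - c * x := by
    rcases hc with h | h | h <;> rw [h] <;> linarith
  have key2 : 1 - c * x ≤ Real.exp (3 * (y - x)) * (1 - c * y) := by
    rcases hc with h | h | h <;> rw [h]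
    · simpa using hxy
    · simpa using key
    · have : 1 + x ≤ Real.exp (3 * (y - x)) * (1 + y) := by nlinarith
      simpa using this
  rw [← div_eq_mul_inv, le_div_iff₀ hcx, inv_mul_le_iff₀ hcy]
  linarith

theorem cm_eu {f : ℕ → ℝ} (hf : CM f) : Eu f (fun p x => (1 - f p * x)⁻¹) 1 where
  one := hf.one
  mul := fun m n hm hn _ => hf.mul m n hm hn
  sm := by
    intro p hp x hx0 hx1
    have h1 : ∀ k : ℕ, f (p ^ k) * x ^ k = (f p * x) ^ k := fun k => by
      rw [cm_pow hf p hp.ne_zero, mul_pow]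
    simp only [h1, norm_pow]
    refine summable_geometric_of_lt_one (norm_nonneg _) ?_
    rw [norm_mul, Real.norm_eq_abs, Real.norm_of_nonneg hx0.le]
    calc |f p| * x ≤ 1 * x := by gcongr; exact cm_abs hf p
      _ < 1 := by rw [one_mul]; exact hx1
  val := by
    intro p hp x hx0 hx1
    have h1 : ∀ k : ℕ, f (p ^ k) * x ^ k = (f p * x) ^ k := fun k => by
      rw [cm_pow hf p hp.ne_zero, mul_pow]
    simp only [h1]
    refine tsum_geometric_of_norm_lt_one ?_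
    rw [norm_mul, Real.norm_eq_abs, Real.norm_of_nonneg hx0.le]
    calc |f p| * x ≤ 1 * x := by gcongr; exact cm_abs hf p
      _ < 1 := by rw [one_mul]; exact hx1
  pos := by
    intro p x hx0 hx1
    have : 0 < 1 - f p * x := by
      rcases hf.val p with h | h | h <;> rw [h] <;> linarith
    positivity
  le := by
    intro p x y hx hxy hy
    have := factor_le (f p) x y (hf.val p) hx hxy hy
    simpa using this

/-- The summand. -/
noncomputable def ff (r : ℕ → ℝ) (a : ℝ) (n : ℕ) : ℝ := af r n * (n : ℝ) ^ (-a)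

theorem x_lt (a : ℝ) (ha : 0 < a) (p : ℕ) (hp : p.Prime) :
    0 < (p : ℝ) ^ (-a) ∧ (p : ℝ) ^ (-a) < 1 := by
  have hp1 : (1 : ℝ) < p := by exact_mod_cast hp.one_lt
  refine ⟨Real.rpow_pos_of_pos (by linarith) _, ?_⟩
  exact Real.rpow_lt_one_of_one_lt_of_neg hp1 (by linarith)

theorem ff_pp (r : ℕ → ℝ) (a : ℝ) (p : ℕ) (k : ℕ) :
    ff r a (p ^ k) = af r (p ^ k) * ((p : ℝ) ^ (-a)) ^ k := by
  unfold ff
  congr 1
  rw [Nat.cast_pow, ← Real.rpow_natCast, ← Real.rpow_natCast, ← Real.rpow_mul (Nat.cast_nonneg _),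
    ← Real.rpow_mul (Nat.cast_nonneg _), mul_comm]

/-- The Euler product. -/
noncomputable def FF (E : ℕ → ℝ → ℝ) (z : ℕ) (a : ℝ) : ℝ :=
  ∏ p ∈ (Finset.Icc 1 z).filter Nat.Prime, E p ((p : ℝ) ^ (-a))

theorem hasSum_FF {r : ℕ → ℝ} {E : ℕ → ℝ → ℝ} {κ : ℝ} (h : Eu r E κ) (z : ℕ) (a : ℝ) (ha : 0 < a) :
    HasSum (Set.indicator (Nat.factoredNumbers (Finset.Icc 1 z)) (ff r a)) (FF E z a) := by
  have hm := af_mult h.one h.mul
  have h1 := (EulerProduct.summable_and_hasSum_factoredNumbers_prod_filter_prime_tsum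
    (f := ff r a) (by simp [ff, hm.1])
    (fun {m n} hmn => by
      unfold ff
      rw [hm.2 hmn, Nat.cast_mul, Real.mul_rpow (Nat.cast_nonneg _) (Nat.cast_nonneg _)]
      ring)
    (fun {p} hp => by
      obtain ⟨hx0, hx1⟩ := x_lt a ha p hp
      have := h.sm p hp _ hx0 hx1
      refine this.congr fun k => ?_
      rw [ff_pp, af_apply r (pow_ne_zero _ hp.ne_zero)]) (Finset.Icc 1 z)).2
  have h2 : ∏ p ∈ (Finset.Icc 1 z).filter Nat.Prime, ∑' n : ℕ, ff r a (p ^ n) =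
      FF E z a := by
    unfold FF
    refine Finset.prod_congr rfl fun p hp => ?_
    have hpp := (Finset.mem_filter.1 hp).2
    obtain ⟨hx0, hx1⟩ := x_lt a ha p hpp
    rw [← h.val p hpp _ hx0 hx1]
    refine tsum_congr fun k => ?_
    rw [ff_pp, af_apply r (pow_ne_zero _ hpp.ne_zero)]
  rw [h2] at h1
  exact hasSum_subtype_iff_indicator.1 h1

theorem mem_fac {z n : ℕ} : n ∈ Nat.factoredNumbers (Finset.Icc 1 z) ↔
    n ≠ 0 ∧ ∀ p : ℕ, p.Prime → p ∣ n → p ≤ z := by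
  constructor
  · intro h
    refine ⟨h.1, fun p hp hpn => ?_⟩
    have := Nat.mem_factoredNumbers'.1 h p hp hpn
    exact (Finset.mem_Icc.1 this).2
  · rintro ⟨h0, h⟩
    exact Nat.mem_factoredNumbers'.2 fun p hp hpn => Finset.mem_Icc.2 ⟨hp.one_lt.le, h p hp hpn⟩

/-- Rankin's trick. -/
theorem rankin {r : ℕ → ℝ} {E : ℕ → ℝ → ℝ} {κ : ℝ} (h : Eu r E κ) (hr : ∀ n, 0 ≤ r n)
    (z S : ℕ) (hS : 1 ≤ S) (s : ℝ) (hs0 : 0 < s) (hs1 : s < 1) :
    FF E z 1 - (S : ℝ) ^ (-s) * FF E z (1 - s) ≤ ∑ n ∈ Finset.Icc 1 S, r n / n := by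
  have h1 := hasSum_FF h z 1 one_pos
  have h2 := (hasSum_FF h z (1 - s) (by linarith)).mul_left ((S : ℝ) ^ (-s))
  have h3 := h1.sub h2
  set F := Finset.Icc 1 S with hF
  set k : ℕ → ℝ := fun n => if n ∈ F then r n / n else 0 with hk
  have h4 : HasSum k (∑ n ∈ F, k n) := hasSum_sum_of_ne_finset_zero fun n hn => by
    simp [hk, hn]
  have h5 : ∑ n ∈ F, k n = ∑ n ∈ F, r n / n := Finset.sum_congr rfl fun n hn => by
    simp [hk, hn]
  rw [← h5]
  refine hasSum_le (fun n => ?_) h3 h4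
  have hSr : (1 : ℝ) ≤ S := by exact_mod_cast hS
  by_cases hn : n ∈ Nat.factoredNumbers (Finset.Icc 1 z)
  · rw [Set.indicator_of_mem hn, Set.indicator_of_mem hn]
    obtain ⟨hn0, hsm⟩ := mem_fac.1 hn
    have hnr : (0 : ℝ) < n := by exact_mod_cast Nat.pos_of_ne_zero hn0
    have hr' := hr n
    have haf : af r n = r n := af_apply r hn0
    by_cases hnS : n ≤ S
    · have hnF : n ∈ F := by
        rw [hF]
        exact Finset.mem_Icc.2 ⟨Nat.pos_of_ne_zero hn0, hnS⟩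
      have hkn : k n = r n / n := by simp [hk, hnF]
      rw [hkn]
      unfold ff
      rw [Real.rpow_neg_one, div_eq_mul_inv, haf]
      have : 0 ≤ (S : ℝ) ^ (-s) * (r n * (n : ℝ) ^ (-(1 - s))) := by positivity
      linarith
    · have hnF : n ∉ F := by
        intro h
        exact hnS (Finset.mem_Icc.1 h).2
      have hkn : k n = 0 := by simp [hk, hnF]
      rw [hkn]
      unfold ff
      rw [haf]
      have hSn : (S : ℝ) ≤ n := by exact_mod_cast (not_le.1 hnS).le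
      have e1 : (n : ℝ) ^ (-1 : ℝ) = (n : ℝ) ^ (-s) * (n : ℝ) ^ (-(1 - s)) := by
        rw [← Real.rpow_add hnr]
        congr 1
        ring
      have e2 : (n : ℝ) ^ (-s) ≤ (S : ℝ) ^ (-s) :=
        Real.rpow_le_rpow_of_nonpos (by linarith) hSn (by linarith)
      rw [e1]
      have e3 : 0 ≤ r n * (n : ℝ) ^ (-(1 - s)) := by positivity
      nlinarith [mul_le_mul_of_nonneg_right e2 e3]
  · rw [Set.indicator_of_notMem hn, Set.indicator_of_notMem hn]
    have hkn : 0 ≤ k n := by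
      have := hr n
      simp only [hk]
      split_ifs <;> positivity
    simpa using hkn

theorem FF_le {r : ℕ → ℝ} {E : ℕ → ℝ → ℝ} {κ : ℝ} (h : Eu r E κ) (hκ : 0 ≤ κ) (z : ℕ) (hz : 2 ≤ z)
    (s : ℝ) (hs : s = 1 / (4 * Real.log z)) :
    FF E z (1 - s) ≤ Real.exp (∑ p ∈ (Finset.Icc 1 z).filter Nat.Prime,
      4 * κ * s * (Real.log p / p)) * FF E z 1 := by
  have hz2 : (2 : ℝ) ≤ z := by exact_mod_cast hz
  have hlz : 0 < Real.log z := Real.log_pos (by linarith)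
  have hs0 : 0 < s := by rw [hs]; positivity
  have hsl : s * Real.log z = 1 / 4 := by
    rw [hs]
    field_simp
  unfold FF
  rw [Real.exp_sum, ← Finset.prod_mul_distrib]
  refine Finset.prod_le_prod (fun p hp => ?_) (fun p hp => ?_)
  · obtain ⟨hp1, hpp⟩ := Finset.mem_filter.1 hp
    have h1 : s < 1 := by
      have : Real.log 2 ≤ Real.log z := Real.log_le_log (by norm_num) hz2
      have h2 := Real.log_two_gt_d9
      nlinarith
    obtain ⟨hx0, hx1⟩ := x_lt (1 - s) (by linarith) p hpp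
    exact (h.pos p _ hx0 hx1).le
  · obtain ⟨hp1, hpp⟩ := Finset.mem_filter.1 hp
    have hpz : (p : ℝ) ≤ z := by exact_mod_cast (Finset.mem_Icc.1 hp1).2
    have hp2 : (2 : ℝ) ≤ p := by exact_mod_cast hpp.two_le
    have hlp : 0 < Real.log p := Real.log_pos (by linarith)
    have hlpz : Real.log p ≤ Real.log z := Real.log_le_log (by linarith) hpz
    set t : ℝ := s * Real.log p with ht
    have ht0 : 0 < t := by positivity
    have ht1 : t ≤ 1 / 4 := by
      rw [← hsl]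
      exact mul_le_mul_of_nonneg_left hlpz hs0.le
    have hx : (p : ℝ) ^ (-(1 : ℝ)) = 1 / p := by
      rw [Real.rpow_neg_one, one_div]
    have hy : (p : ℝ) ^ (-(1 - s)) = (1 / p) * Real.exp t := by
      rw [← hx, ht, Real.rpow_def_of_pos (by linarith), Real.rpow_def_of_pos (by linarith),
        ← Real.exp_add]
      congr 1
      ring
    have he : Real.exp t * (1 - t) ≤ 1 := by
      have h1 : 1 - t ≤ Real.exp (-t) := by
        have := Real.add_one_le_exp (-t)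
        linarith
      calc Real.exp t * (1 - t) ≤ Real.exp t * Real.exp (-t) := by gcongr
        _ = 1 := by rw [← Real.exp_add]; simp
    have hE0 := Real.exp_pos t
    have he1 : Real.exp t ≤ 4 / 3 := by nlinarith
    have he2 : Real.exp t - 1 ≤ 4 / 3 * t := by nlinarith
    have he3 : 1 ≤ Real.exp t := Real.one_le_exp ht0.le
    have hp0 : (0 : ℝ) < 1 / p := by positivity
    have hp12 : (1 : ℝ) / p ≤ 1 / 2 := by
      apply one_div_le_one_div_of_le <;> linarith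
    have h' := h.le p ((p : ℝ) ^ (-(1 : ℝ))) ((p : ℝ) ^ (-(1 - s)))
      (by rw [hx]; exact hp0) (by rw [hx, hy]; nlinarith) (by rw [hy]; nlinarith)
    refine h'.trans ?_
    have hnn : 0 ≤ E p ((p : ℝ) ^ (-(1 : ℝ))) := by
      obtain ⟨hx0, hx1⟩ := x_lt 1 one_pos p hpp
      exact (h.pos p _ hx0 hx1).le
    refine mul_le_mul_of_nonneg_right ?_ hnn
    apply Real.exp_le_exp.2
    rw [hx, hy]
    have : 1 / (p : ℝ) * Real.exp t - 1 / p = (1 / p) * (Real.exp t - 1) := by ring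
    rw [this]
    have h8 : 4 * κ * s * (Real.log p / p) = 3 * κ * ((1 / p) * (4 / 3 * t)) := by
      rw [ht]
      ring
    rw [h8]
    gcongr

theorem FF_pos {r : ℕ → ℝ} {E : ℕ → ℝ → ℝ} {κ : ℝ} (h : Eu r E κ) (z : ℕ) : 0 < FF E z 1 := by
  unfold FF
  refine Finset.prod_pos fun p hp => ?_
  obtain ⟨hp1, hpp⟩ := Finset.mem_filter.1 hp
  obtain ⟨hx0, hx1⟩ := x_lt 1 one_pos p hpp
  exact h.pos p _ hx0 hx1

theorem main {r : ℕ → ℝ} {E : ℕ → ℝ → ℝ} {κ : ℝ} (h : Eu r E κ) (hκ : 0 ≤ κ) (hr : ∀ n, 0 ≤ r n)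
    (C : ℝ) (hC0 : 0 ≤ C) (hC : ∀ N : ℕ, 1 ≤ N →
      |∑ p ∈ (Finset.Icc 1 N).filter Nat.Prime, Real.log p / p - Real.log N| ≤ C)
    (a : ℕ) (ha : 4 * (1 + κ + 2 * κ * C) ≤ (a : ℝ)) (z : ℕ) (hz : 2 ≤ z) :
    1 / 2 * FF E z 1 ≤ ∑ n ∈ Finset.Icc 1 (z ^ a), r n / n := by
  have hz2 : (2 : ℝ) ≤ z := by exact_mod_cast hz
  have hlz : 0 < Real.log z := Real.log_pos (by linarith)
  have hl2 : Real.log 2 ≤ Real.log z := Real.log_le_log (by norm_num) hz2
  have hl2' := Real.log_two_gt_d9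
  set s : ℝ := 1 / (4 * Real.log z) with hs
  have hs0 : 0 < s := by rw [hs]; positivity
  have hsl : s * Real.log z = 1 / 4 := by
    rw [hs]
    field_simp
  have hs1 : s ≤ 1 / 2 := by nlinarith
  have hS1 : 1 ≤ z ^ a := Nat.one_le_pow _ _ (by omega)
  have hR := rankin h hr z (z ^ a) hS1 s hs0 (by linarith)
  have hF := FF_le h hκ z hz s hs
  have hM : ∑ p ∈ (Finset.Icc 1 z).filter Nat.Prime, 4 * κ * s * (Real.log p / p) ≤
      κ + 2 * κ * C := by
    rw [← Finset.mul_sum]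
    have h1 := (abs_le.1 (hC z (by omega))).2
    have h2 : ∑ p ∈ (Finset.Icc 1 z).filter Nat.Prime, Real.log p / p ≤ Real.log z + C := by
      linarith
    calc 4 * κ * s * ∑ p ∈ (Finset.Icc 1 z).filter Nat.Prime, Real.log p / p
        ≤ 4 * κ * s * (Real.log z + C) := by gcongr
      _ = 4 * κ * (s * Real.log z) + 4 * (κ * C) * s := by ring
      _ ≤ κ + 2 * κ * C := by
        rw [hsl]
        have h3 : (κ * C) * s ≤ (κ * C) * (1 / 2) := mul_le_mul_of_nonneg_left hs1 (by positivity)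
        linarith
  have hSs : (((z ^ a : ℕ) : ℝ)) ^ (-s) ≤ Real.exp (-(a / 4)) := by
    have h2 : (0 : ℝ) < (z : ℝ) ^ a := by positivity
    rw [Nat.cast_pow, Real.rpow_def_of_pos h2, Real.log_pow]
    apply le_of_eq
    congr 1
    have : (a : ℝ) * Real.log z * -s = -(a * (s * Real.log z)) := by ring
    rw [this, hsl]
    ring
  have hFp := FF_pos h z
  have hbound : (((z ^ a : ℕ) : ℝ)) ^ (-s) * FF E z (1 - s) ≤ 1 / 2 * FF E z 1 := by
    calc (((z ^ a : ℕ) : ℝ)) ^ (-s) * FF E z (1 - s)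
        ≤ Real.exp (-(a / 4)) * (Real.exp (κ + 2 * κ * C) * FF E z 1) := by
          have h0 : FF E z (1 - s) ≤ Real.exp (κ + 2 * κ * C) * FF E z 1 := by
            refine hF.trans ?_
            gcongr
          have h3 : (0 : ℝ) ≤ (((z ^ a : ℕ) : ℝ)) ^ (-s) := by positivity
          calc (((z ^ a : ℕ) : ℝ)) ^ (-s) * FF E z (1 - s)
              ≤ (((z ^ a : ℕ) : ℝ)) ^ (-s) * (Real.exp (κ + 2 * κ * C) * FF E z 1) := by gcongr
            _ ≤ _ := by gcongr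
      _ = Real.exp (-(a / 4) + (κ + 2 * κ * C)) * FF E z 1 := by
          rw [Real.exp_add (-((a : ℝ) / 4))]
          ring
      _ ≤ 1 / 2 * FF E z 1 := by
          have h4 : Real.exp (-(a / 4) + (κ + 2 * κ * C)) ≤ Real.exp (-1) := by
            apply Real.exp_le_exp.2
            linarith
          have h5 : Real.exp (-1) ≤ 1 / 2 := by
            have h6 := Real.exp_one_gt_d9
            rw [Real.exp_neg, one_div]
            apply inv_anti₀ (by norm_num)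
            linarith
          gcongr
          linarith
  linarith

theorem cm_of_chr {f : ℕ → ℝ} {Q : ℝ} (h : Chr f Q) : CM f := ⟨h.one, h.mul, h.val⟩

theorem cm_one : CM (fun _ => (1 : ℝ)) := ⟨rfl, fun _ _ _ _ => by norm_num, fun _ => Or.inr (Or.inl rfl)⟩

theorem cm_mul {f g : ℕ → ℝ} (hf : CM f) (hg : CM g) : CM (fun n => f n * g n) where
  one := by simp [hf.one, hg.one]
  mul := by
    intro a b ha hb
    simp only [hf.mul a b ha hb, hg.mul a b ha hb]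
    ring
  val := by
    intro n
    rcases hf.val n with h | h | h <;> rcases hg.val n with h' | h' | h' <;> simp [h, h']

/-- The product of the `(1 - 1 / p)⁻¹` is at least the logarithm. -/
theorem log_le (X : ℕ) (hX : 1 ≤ X) :
    Real.log X ≤ FF (fun _ x => (1 - 1 * x)⁻¹) X 1 := by
  have h1 := hasSum_FF (cm_eu cm_one) X 1 one_pos
  have h2 : ∑ n ∈ Finset.Icc 1 X, (1 : ℝ) / n ≤ FF (fun _ x => (1 - 1 * x)⁻¹) X 1 := by
    have h3 := sum_le_hasSum (Finset.Icc 1 X) (fun n _ => by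
      apply Set.indicator_nonneg
      intro n hn
      unfold ff
      rw [af_apply _ (mem_fac.1 hn).1]
      positivity) h1
    refine le_trans (le_of_eq ?_) h3
    refine Finset.sum_congr rfl fun n hn => ?_
    obtain ⟨ha, hb⟩ := Finset.mem_Icc.1 hn
    have hmem : n ∈ Nat.factoredNumbers (Finset.Icc 1 X) :=
      mem_fac.2 ⟨by omega, fun p hp hpn => (Nat.le_of_dvd (by omega) hpn).trans hb⟩
    rw [Set.indicator_of_mem hmem]
    unfold ff
    rw [af_apply _ (by omega), Real.rpow_neg_one, one_mul, one_div]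
  have h3 : Real.log X ≤ ∑ n ∈ Finset.Icc 1 X, (1 : ℝ) / n := by
    have h4 := log_add_one_le_harmonic X
    have h5 : (harmonic X : ℝ) = ∑ n ∈ Finset.Icc 1 X, (1 : ℝ) / n := by
      rw [harmonic_eq_sum_Icc]
      push_cast
      refine Finset.sum_congr rfl fun n _ => ?_
      rw [one_div]
    rw [← h5]
    refine le_trans ?_ h4
    apply Real.log_le_log
    · exact_mod_cast hX
    · push_cast
      linarith
  exact h3.trans h2

theorem PP_eq (f : ℕ → ℝ) (X : ℕ) : PP f X = FF (fun p x => (1 - f p * x)⁻¹) X 1 := by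
  unfold PP FF
  refine Finset.prod_congr (by congr) fun p _ => ?_
  rw [Real.rpow_neg_one, div_eq_mul_inv]

theorem FF_mul (E F : ℕ → ℝ → ℝ) (z : ℕ) (a : ℝ) :
    FF (fun p x => E p x * F p x) z a = FF E z a * FF F z a := by
  unfold FF
  rw [← Finset.prod_mul_distrib]

/-- **SMOG.** -/
theorem t_SMOG (hPOS : E_POS) : E_SMOG := by
  obtain ⟨C, hC⟩ := Pool.Agent.Erdos456.Mert.mertens_log
  have hC0 : 0 ≤ C := (abs_nonneg _).trans (hC 1 le_rfl)
  refine ⟨⌈4 * (1 + 4 + 2 * 4 * C)⌉₊, ?_⟩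
  intro a ha X hX f₁ f₂ Q h₁ h₂
  have ha' : 4 * (1 + 4 + 2 * 4 * C) ≤ (a : ℝ) := Nat.ceil_le.1 ha
  obtain ⟨hp2, hp4, -, -⟩ := hPOS f₁ f₂ Q h₁ h₂
  have c1 := cm_of_chr h₁
  have c2 := cm_of_chr h₂
  have c3 := cm_mul c1 c2
  have e1 := cm_eu c1
  have e2 := cm_eu c2
  have e3 := cm_eu c3
  have e0 := cm_eu cm_one
  have hl := log_le X (by omega)
  have hL0 : 0 ≤ Real.log X := Real.log_natCast_nonneg X
  have P1 := FF_pos e1 X
  have P2 := FF_pos e2 X
  have P3 := FF_pos e3 X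
  constructor
  · have h := main (eu_cv e1 e0) (by norm_num) hp2 C hC0 hC a (by nlinarith) X hX
    rw [FF_mul] at h
    refine le_trans ?_ h
    rw [PP_eq]
    have : Real.log X * FF (fun p x => (1 - f₁ p * x)⁻¹) X 1 ≤
      FF (fun p x => (1 - f₁ p * x)⁻¹) X 1 * FF (fun _ x => (1 - 1 * x)⁻¹) X 1 := by
      rw [mul_comm]
      gcongr
    linarith
  · have h := main (eu_cv (eu_cv e2 e3) (eu_cv e1 e0)) (by norm_num) hp4 C hC0 hC a (by nlinarith) X hX
    rw [FF_mul, FF_mul, FF_mul] at h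
    refine le_trans ?_ h
    rw [PP_eq, PP_eq, PP_eq]
    have : Real.log X * FF (fun p x => (1 - f₁ p * x)⁻¹) X 1 * FF (fun p x => (1 - f₂ p * x)⁻¹) X 1 *
        FF (fun p x => (1 - f₁ p * f₂ p * x)⁻¹) X 1 ≤
      FF (fun p x => (1 - f₂ p * x)⁻¹) X 1 * FF (fun p x => (1 - f₁ p * f₂ p * x)⁻¹) X 1 *
      (FF (fun p x => (1 - f₁ p * x)⁻¹) X 1 * FF (fun _ x => (1 - 1 * x)⁻¹) X 1) := by
      calc _ = FF (fun p x => (1 - f₂ p * x)⁻¹) X 1 * FF (fun p x => (1 - f₁ p * f₂ p * x)⁻¹) X 1 *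
          (FF (fun p x => (1 - f₁ p * x)⁻¹) X 1 * Real.log X) := by ring
        _ ≤ _ := by gcongr
    linarith

end Pool.Agent.N11.RP.SMOG
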